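import Pool.Agent.Run7.h230.QF.Stm2
import Pool.Agent.Run7.h230.QF.NEG

/-! # Piece BXF of project QF, phase 2 (helper299) -/

set_option autoImplicit false

namespace Pool.Agent.Run7.h299.QF

open Pool.Agent.Run7.h230.QF
open Pool.Agent.H97R3.VR (IsMedian)
open Pool.Agent.TH97.VR (walls)

/-- the largest initial segment of a set of integers -/
theorem seg (E : ℤ → Prop) (R : ℕ) (hR : ∀ l : ℤ, 0 ≤ l → l < R → E l)
    (hs : ∃ s : ℤ, ∀ l, 0 ≤ l → E l → l < s) :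
    ∃ b : ℤ, (R : ℤ) ≤ b ∧ ∀ t : ℤ, (∀ l, 0 ≤ l → l < t → E l) ↔ t ≤ b := by
  classical
  obtain ⟨s, hs⟩ := hs
  have hex : ∃ n : ℕ, ¬ E n := by
    refine ⟨s.toNat, fun h => ?_⟩
    have := hs _ (by positivity) h
    omega
  refine ⟨(Nat.find hex : ℤ), ?_, fun t => ⟨fun h => ?_, fun h l h0 h1 => ?_⟩⟩
  · by_contra hcon
    push Not at hcon
    exact Nat.find_spec hex (hR _ (by positivity) hcon)
  · by_contra hcon
    push Not at hcon
    exact Nat.find_spec hex (h _ (by positivity) hcon)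
  · by_contra hcon
    have h2 : ¬ E ((l.toNat : ℕ) : ℤ) := by
      rw [Int.toNat_of_nonneg h0]
      exact hcon
    have h3 := Nat.find_min' hex h2
    omega

theorem t_BXF (hEQV : S_EQV) (hORB : S_ORB) (hMIN : S_MIN) (hDET : S_DET) (hCOPY : S_COPY) :
    S_BXF := by
  intro V G _ _ Γ hA hZ k hk hN f hf R
  have hΓ := hA.med
  obtain ⟨hS, hfS⟩ := hORB V G Γ hA k f hf
  obtain ⟨L, hLs, hL, hne⟩ := hMIN V G Γ hA k _ hS ⟨f, hfS⟩
  have hdir : ∀ (i : Fin k) (b : Bool) (R : ℕ), ∃ f₁ ∈ L, ∃ f₂ ∈ L, Agree f₁ f₂ R ∧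
      Bd Γ i b f₁ f₂ := by
    intro i b R
    cases b with
    | true =>
      have h1 := hDET V G Γ hA hZ k 1 hk hN L hL.sys hne i R
      unfold Det at h1
      push Not at h1
      obtain ⟨f₁, h2, f₂, h3, h4, h5⟩ := h1
      exact ⟨f₁, h2, f₂, h3, h4, by simpa [Bd] using h5⟩
    | false =>
      have h1 := hDET V G Γ hA hZ k 1 hk hN (ng '' L) (t_NEG V G Γ k L hL.sys) (hne.image _) i R
      unfold Det at h1
      push Not at h1
      obtain ⟨_, ⟨f₁, h2, rfl⟩, _, ⟨f₂, h3, rfl⟩, h4, h5⟩ := h1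
      refine ⟨f₁, h2, f₂, h3, ?_, by simpa [Bd] using h5⟩
      have := h4.ng
      rwa [ng_ng, ng_ng] at this
  obtain ⟨h₁, m1, h₂, m2, hag', hbd⟩ := hCOPY V G Γ hA k 1 hN L hL hne hdir (max R 1)
  have hag : Agree h₁ h₂ R := hag'.mono (le_max_left _ _)
  have hag1 : Agree h₁ h₂ 1 := hag'.mono (le_max_right _ _)
  have f1 := hL.sys.flat _ m1
  have f2 := hL.sys.flat _ m2
  have key := hEQV V Γ hΓ k hN h₁ h₂ f1 f2 hag1
  -- the walls which agree
  have hE : ∀ i (z : Fin k → ℤ), (∀ i', |z i'| ≤ (R : ℤ)) → ∀ l : ℤ,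
      ((0 ≤ l ∧ l < z i) ∨ (z i ≤ l ∧ l < 0)) → HS Γ h₁ i l = HS Γ h₂ i l := by
    intro i z hz l hl
    exact ((key z z).1 (hag z hz)).2 i l hl
  have hsing : ∀ (i : Fin k) (t : ℤ), |t| ≤ (R : ℤ) → ∀ i', |(Pi.single i t : Fin k → ℤ) i'| ≤ (R : ℤ) := by
    intro i t ht i'
    by_cases h : i' = i
    · subst h
      simpa using ht
    · rw [Pi.single_eq_of_ne h]
      simp
  -- positive directions
  have hpos : ∀ i : Fin k, ∃ b : ℤ, (R : ℤ) ≤ b ∧ ∀ t : ℤ,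
      (∀ l, 0 ≤ l → l < t → HS Γ h₁ i l = HS Γ h₂ i l) ↔ t ≤ b := by
    intro i
    refine seg (fun l => HS Γ h₁ i l = HS Γ h₂ i l) R (fun l h0 h1 => ?_) ?_
    · exact hE i (Pi.single i (R : ℤ)) (hsing i R (by simp)) l (Or.inl ⟨h0, by simpa using h1⟩)
    · have h := hbd i true
      simp only [Bd, if_true] at h
      obtain ⟨s, hs⟩ := h
      refine ⟨s, fun l _ hl => ?_⟩
      by_contra hcon
      push Not at hcon
      apply hs l hcon
      rw [hl]
      refine ⟨⟨Pi.single i (l + 1), (f2.side _ _ _).2 (by simp)⟩, ⟨Pi.single i l, fun h => ?_⟩⟩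
      have := (f2.side _ _ _).1 h
      simp at this
  -- negative directions
  have hneg : ∀ i : Fin k, ∃ b : ℤ, (R : ℤ) ≤ b ∧ ∀ t : ℤ,
      (∀ l, 0 ≤ l → l < t → HS Γ h₁ i (-l - 1) = HS Γ h₂ i (-l - 1)) ↔ t ≤ b := by
    intro i
    refine seg (fun l => HS Γ h₁ i (-l - 1) = HS Γ h₂ i (-l - 1)) R (fun l h0 h1 => ?_) ?_
    · refine hE i (Pi.single i (-(R : ℤ))) (hsing i (-R) (by simp)) (-l - 1)
        (Or.inr ⟨?_, by omega⟩)
      simp only [Pi.single_eq_same]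
      omega
    · have h := hbd i false
      simp only [Bd, Bool.false_eq_true, if_false] at h
      obtain ⟨s, hs⟩ := h
      refine ⟨s, fun l _ hl => ?_⟩
      by_contra hcon
      push Not at hcon
      apply hs l hcon
      rw [f1.HS_ng hΓ, hl, ← f2.HS_ng hΓ]
      refine ⟨⟨Pi.single i (l + 1), (f2.ng.side _ _ _).2 (by simp)⟩, ⟨Pi.single i l, fun h => ?_⟩⟩
      have := (f2.ng.side _ _ _).1 h
      simp at this
  choose b hb1 hb2 using hpos
  choose a ha1 ha2 using hneg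
  refine ⟨h₁, hLs m1, h₂, hLs m2, hL.min h₂ m2 m1, hL.min h₁ m1 m2, f1, f2,
    fun i => -a i, b, fun i => ⟨by have := ha1 i; beta_reduce; omega, hb1 i⟩, fun z w => ?_⟩
  rw [key z w]
  refine and_congr_right fun _ => forall_congr' fun i => ?_
  have e1 := hb2 i (z i)
  have e2 := ha2 i (-z i)
  beta_reduce
  constructor
  · intro h
    constructor
    · have : -z i ≤ a i := e2.1 fun l h0 h1 => h (-l - 1) (Or.inr ⟨by omega, by omega⟩)
      omega
    · exact e1.1 fun l h0 h1 => h l (Or.inl ⟨h0, h1⟩)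
  · rintro ⟨h1, h2⟩ l (⟨h3, h4⟩ | ⟨h3, h4⟩)
    · exact e1.2 h2 l h3 h4
    · have h5 := e2.2 (by omega) (-l - 1) (by omega) (by omega)
      have h6 : -(-l - 1) - 1 = l := by ring
      rwa [h6] at h5

end Pool.Agent.Run7.h299.QF
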